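import Mathlib
import Pool.Agent.Helper39.LN2.AM2O
import Pool.Agent.Helper58.LN2.STAT
import Pool.Agent.Helper94.LN2.AM1O

/-!
# Sections in amenable locally nontrivial automaton groups

If the action of the group `G` of a finite invertible automaton is locally nontrivial, `G` is amenable, and no
state is transient for the letters in the orbit of the letter `a`, then the sections at `a` of the elements of `G`
fixing `a` form a subgroup of index at most the size of the orbit.
-/

set_option autoImplicit false

namespace Pool.Agent.Results.MP_d0c558_al.AmenableIndex

open Pool.Agent.Helper85.LN Pool.Agent.Helper85.LN2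

theorem result (m d : ℕ) (A : Auto (Fin m) (Fin d)) (a : Fin d) (hA : A.LN) (hR : RecAt A a)
    (hG : Amen A) : SecIdx A a {x | InOrb A a x}.ncard :=
  Pool.Agent.Helper39.LN2.am2o Pool.Agent.Helper58.LN2.stat Pool.Agent.Helper94.LN2.am1o m d A a hA hR hG

end Pool.Agent.Results.MP_d0c558_al.AmenableIndex
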