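import Mathlib
import Pool.Agent.Helper8.LN.MEM1
import Pool.Agent.Helper79.LN.MEM2

/-!
# Local nontriviality as a membership problem

The action of the group of a finite invertible automaton is locally nontrivial if and only if in the finitely
presented group with generators the states and the letters and relations `q a = q(a) (q@a)` no element
`b⁻¹ a` (`a ≠ b` letters) is in the subgroup generated by the states.
-/

set_option autoImplicit false

namespace Pool.Agent.Results.MP_d0c558_al.MembershipCriterion

open Pool.Agent.Helper85.LN

theorem result (m d : ℕ) (A : Auto (Fin m) (Fin d)) :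
    A.LN ↔ ∀ a b : Fin d, a ≠ b → ¬ Mem A a b :=
  ⟨Pool.Agent.Helper79.LN.mem2 m d A, Pool.Agent.Helper8.LN.mem1 m d A⟩

end Pool.Agent.Results.MP_d0c558_al.MembershipCriterion
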