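import Mathlib
import Pool.Agent.Helper85.LN.Done

/-!
# Locally nontrivial actions of contracting automata and of automata of polynomial activity

If the action of the group of a finite invertible automaton is locally nontrivial, and the automaton is
contracting or from every state one reaches a set of states that generates a group of polynomial growth (for
example automata of polynomial activity), then the group is virtually nilpotent and the groups of sections have
finite index.
-/

set_option autoImplicit false

namespace Pool.Agent.Results.MP_d0c558_al.ReachableVirtuallyNilpotent

open Pool.Agent.Helper85.LN Pool.Agent.Helper5.Gap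

theorem result (m d : ℕ) (A : Auto (Fin m) (Fin d)) (hA : A.LN)
    (h : PolyAct A ∨ Reach A ∨ Contr A) : VirtNilpotent A.G ∧ ∀ a, SecFin A a := by
  obtain ⟨_, _, hf⟩ := Pool.Agent.Helper85.LN.res1
  refine (hf m d A).2.2.2.2.2.2.2 hA ?_
  rcases h with h | h
  · exact Or.inl (polyAct_reach A h)
  · exact h

end Pool.Agent.Results.MP_d0c558_al.ReachableVirtuallyNilpotent
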