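import Mathlib
import Pool.Agent.Helper85.LN2.Done

/-!
# An algorithm for local nontriviality of automaton groups

There is one algorithm on the tables of finite invertible automata which is never wrong about local
nontriviality, stops whenever the action is not locally nontrivial, and stops on the main classes of automata.
-/

set_option autoImplicit false

namespace Pool.Agent.Results.MP_d0c558_al.SoundAlgorithm

open Pool.Agent.Helper85.LN Pool.Agent.Helper85.LN2

theorem result : ∃ f : ℕ × List (List ℕ) × List (List ℕ) →. Bool, Partrec f ∧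
    ∀ (m d : ℕ) (A : Auto (Fin m) (Fin d)),
      (∀ b ∈ f (enc A), (b = true ↔ A.LN)) ∧
      (¬ A.LN → (f (enc A)).Dom) ∧
      (SecA A → (Group.IsFinitelyPresented A.G ∨ Meta2 A ∨ Lamp A) → (f (enc A)).Dom) ∧
      (PolyAct A ∨ Reach A ∨ Contr A ∨ BiRev A ∨ VFree A → (f (enc A)).Dom) :=
  Pool.Agent.Helper85.LN2.res3

end Pool.Agent.Results.MP_d0c558_al.SoundAlgorithm
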